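import Mathlib

open Set Filter Topology

namespace Pool.Agent.Results.MP_68c038_an.Yes

universe u

variable {X : Type u} [NormedAddCommGroup X] [NormedSpace ℝ X]

theorem le_one_iff (x y : X) : ‖x - y‖ ≤ 1 ↔ ∀ z, ‖z - x‖ < 1 → ‖z - y‖ < 2 := by
  constructor
  · intro h z hz
    calc ‖z - y‖ = ‖(z - x) + (x - y)‖ := by congr 1; abel
      _ ≤ ‖z - x‖ + ‖x - y‖ := norm_add_le _ _
      _ < 2 := by linarith
  · intro h
    by_contra hc
    push Not at hc
    set d := ‖x - y‖ with hd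
    have hd0 : 0 < d := by linarith
    have h1 : ‖x + (1 / d ^ 2) • (x - y) - x‖ = 1 / d := by
      rw [add_sub_cancel_left, norm_smul, ← hd, Real.norm_eq_abs, abs_of_pos (by positivity)]
      field_simp
    have h2 : ‖x + (1 / d ^ 2) • (x - y) - y‖ = d + 1 / d := by
      rw [show x + (1 / d ^ 2) • (x - y) - y = (1 + 1 / d ^ 2) • (x - y) by
        rw [add_smul, one_smul]; abel, norm_smul, ← hd, Real.norm_eq_abs,
        abs_of_pos (by positivity)]
      field_simp
    have h3 := h (x + (1 / d ^ 2) • (x - y)) (by rw [h1, div_lt_one hd0]; exact hc)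
    rw [h2] at h3
    have h4 : d + 1 / d - 2 = (d - 1) ^ 2 / d := by field_simp; ring
    have h5 : 0 ≤ (d - 1) ^ 2 / d := by positivity
    linarith

theorem defect (p q : X) {α β M : ℝ} (h1 : α ≤ M) (h2 : β ≤ M) (hM : 0 ≤ M) :
    M * ‖p + q‖ - (M - α) * ‖p‖ - (M - β) * ‖q‖ ≤ ‖α • p + β • q‖ := by
  have e : M • (p + q) = (α • p + β • q) + (M - α) • p + (M - β) • q := by module
  have h := norm_add₃_le (a := α • p + β • q) (b := (M - α) • p) (c := (M - β) • q)
  rw [← e, norm_smul, norm_smul, norm_smul, Real.norm_eq_abs, Real.norm_eq_abs, Real.norm_eq_abs,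
    abs_of_nonneg hM, abs_of_nonneg (by linarith), abs_of_nonneg (by linarith)] at h
  linarith

theorem radial {T : X → X} (hs : Function.Surjective T)
    (h1 : ∀ x y, ‖x - y‖ < 1 ↔ ‖T x - T y‖ < 1) (h2 : ∀ x y, ‖x - y‖ ≤ 1 ↔ ‖T x - T y‖ ≤ 1)
    (x v : X) {ε₀ : ℝ} (hε₀ : 0 < ε₀) : ∃ t : ℝ, 0 < t ∧ ‖T (x + t • v) - T x‖ ≤ ε₀ := by
  by_contra hcon
  push Not at hcon
  let d : ℝ → X := fun t => T (x + t • v) - T x
  have small : ∀ z, ‖z - x‖ < 1 → ∃ r : ℝ, 0 < r ∧ ∀ s : ℝ, 0 < s → s ≤ r → ‖z - (x + s • v)‖ < 1 := by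
    intro z hz
    refine ⟨(1 - ‖z - x‖) / (‖v‖ + 1), div_pos (by linarith) (by positivity), fun s hs hr => ?_⟩
    rw [le_div_iff₀ (by positivity)] at hr
    calc ‖z - (x + s • v)‖ = ‖(z - x) - s • v‖ := by congr 1; abel
      _ ≤ ‖z - x‖ + ‖s • v‖ := norm_sub_le _ _
      _ < 1 := by rw [norm_smul, Real.norm_eq_abs, abs_of_pos hs]; nlinarith
  have nest : ∀ s t : ℝ, 0 < s → s ≤ t → ∀ w, ‖w - T x‖ ≤ 1 → ‖w - T (x + t • v)‖ ≤ 1 →
      ‖w - T (x + s • v)‖ ≤ 1 := by
    intro s t hs0 hst w a1 a2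
    obtain ⟨z, rfl⟩ := hs w
    rw [← h2] at a1 a2 ⊢
    have ht : 0 < t := by linarith
    have e : z - (x + s • v) = (1 - s / t) • (z - x) + (s / t) • (z - (x + t • v)) := by
      have : s • v = (s / t) • t • v := by rw [smul_smul]; congr 1; field_simp
      rw [this]; module
    have b1 : 0 ≤ s / t := by positivity
    have b2 : s / t ≤ 1 := (div_le_one ht).2 hst
    rw [e]
    refine (norm_add_le _ _).trans ?_
    rw [norm_smul, norm_smul, Real.norm_eq_abs, Real.norm_eq_abs, abs_of_nonneg (by linarith),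
      abs_of_nonneg b1]
    nlinarith
  let S : Set ℝ := (fun t => ‖d t‖) '' Ioi 0
  have hne : S.Nonempty := ⟨_, 1, by simp, rfl⟩
  have hbd : BddBelow S := ⟨0, by rintro _ ⟨t, -, rfl⟩; exact norm_nonneg _⟩
  set ε := sInf S with hε
  have hε0 : 0 < ε := hε₀.trans_le (le_csInf hne (by
    rintro _ ⟨t, ht, rfl⟩; exact (hcon t ht).le))
  have hlow : ∀ t, 0 < t → ε ≤ ‖d t‖ := fun t ht => csInf_le hbd ⟨t, ht, rfl⟩
  obtain ⟨r₀, hr₀, H₀⟩ := small x (by simp)
  have hd1 : ∀ s, 0 < s → s ≤ r₀ → ‖d s‖ < 1 := by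
    intro s hs0 hs1
    have := (h1 _ _).1 (H₀ s hs0 hs1)
    rwa [norm_sub_rev] at this
  have hε1 : ε < 1 := (hlow r₀ hr₀).trans_lt (hd1 r₀ hr₀ le_rfl)
  set M := 1 / ε + 1 / (1 - ε) with hM
  have hM1 : 0 < 1 / ε := by positivity
  have hM2 : 0 < 1 / (1 - ε) := div_pos one_pos (by linarith)
  have hM0 : 0 < M := by positivity
  set δ := min (ε / 2) (ε / (8 * M)) with hδ
  have hδ0 : 0 < δ := by positivity
  have hδ1 : δ ≤ ε / 2 := min_le_left _ _
  have hδ2 : δ * (8 * M) ≤ ε := by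
    rw [← le_div_iff₀ (by positivity)]; exact min_le_right _ _
  obtain ⟨_, ⟨t, ht, rfl⟩, hta⟩ := exists_lt_of_csInf_lt hne (show sInf S < ε + δ by linarith)
  simp only at hta
  have ha0 : 0 < ‖d t‖ := hε0.trans_le (hlow t ht)
  set c := (1 - ε / 2) / ‖d t‖ with hc
  have hc0 : 0 < c := div_pos (by linarith) ha0
  have hca : c * ‖d t‖ = 1 - ε / 2 := by rw [hc]; field_simp
  obtain ⟨z, hz⟩ := hs (T x - c • d t)
  have hz1 : ‖z - x‖ < 1 := by
    rw [h1, hz, sub_sub_cancel_left, norm_neg, norm_smul, Real.norm_eq_abs, abs_of_pos hc0, hca]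
    linarith
  obtain ⟨r₁, hr₁, H₁⟩ := small z hz1
  set s := min t (min r₀ r₁) with hsdef
  have hs0 : 0 < s := lt_min ht (lt_min hr₀ hr₁)
  have hb1 : ‖d s‖ < 1 := hd1 s hs0 ((min_le_right _ _).trans (min_le_left _ _))
  have hb0 : ε ≤ ‖d s‖ := hlow s hs0
  have hb0' : 0 < ‖d s‖ := by linarith
  have up : ‖c • d t + d s‖ < 1 := by
    have := (h1 _ _).1 (H₁ s hs0 ((min_le_right _ _).trans (min_le_right _ _)))
    rw [hz] at this
    rw [show T x - c • d t - T (x + s • v) = -(c • d t + d s) by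
      simp only [d]; abel, norm_neg] at this
    exact this
  set l := (1 - ε + δ) / ‖d s‖ with hl
  have hl0 : 0 < l := div_pos (by linarith) hb0'
  have hlb : l * ‖d s‖ = 1 - ε + δ := by rw [hl]; field_simp
  have hlb' : ‖l • d s‖ = 1 - ε + δ := by
    rw [norm_smul, Real.norm_eq_abs, abs_of_pos hl0, hlb]
  have big : 1 < ‖d t + l • d s‖ := by
    by_contra hcc
    push Not at hcc
    have a := nest s t hs0 (min_le_left _ _) (T x - l • d s) (by
      rw [sub_sub_cancel_left, norm_neg, hlb']; linarith) (by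
      rw [show T x - l • d s - T (x + t • v) = -(d t + l • d s) by
        simp only [d]; abel, norm_neg]
      exact hcc)
    have e : T x - l • d s - T (x + s • v) = -((1 + l) • d s) := by
      rw [add_smul, one_smul]; simp only [d]; abel
    rw [e, norm_neg, norm_smul, Real.norm_eq_abs, abs_of_pos (by linarith)] at a
    nlinarith
  have k1 : c ≤ M := by
    have : c ≤ 1 / ε := by
      rw [hc]
      exact div_le_div₀ zero_le_one (by linarith) hε0 (hlow t ht)
    linarith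
  have k2 : 1 / l ≤ M := by
    have : 1 / l ≤ 1 / (1 - ε) := by
      refine one_div_le_one_div_of_le (by linarith) ?_
      rw [hl, le_div_iff₀ hb0']
      nlinarith
    linarith
  have low := defect (d t) (l • d s) k1 k2 hM0.le
  rw [smul_smul, one_div_mul_cancel hl0.ne', one_smul, hlb'] at low
  have k3 : 1 / l * (1 - ε + δ) = ‖d s‖ := by rw [← hlb]; field_simp
  nlinarith

theorem result (X : Type u) [NormedAddCommGroup X] [NormedSpace ℝ X] [CompleteSpace X]
    (T : X → X) (hT : Function.Bijective T)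
    (h : ∀ x y, ⌊‖x - y‖⌋ = ⌊‖T x - T y‖⌋) : Continuous T := by
  have hk : ∀ (k : ℤ) (x y : X), ‖x - y‖ < k ↔ ‖T x - T y‖ < k := by
    intro k x y
    rw [← Int.floor_lt, ← Int.floor_lt, h]
  have h1 : ∀ x y, ‖x - y‖ < 1 ↔ ‖T x - T y‖ < 1 := fun x y => by simpa using hk 1 x y
  have h1' : ∀ x y, ‖x - y‖ < 2 ↔ ‖T x - T y‖ < 2 := fun x y => by simpa using hk 2 x y
  have h2 : ∀ x y, ‖x - y‖ ≤ 1 ↔ ‖T x - T y‖ ≤ 1 := by
    intro x y
    rw [le_one_iff, le_one_iff]
    constructor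
    · intro H w
      obtain ⟨z, rfl⟩ := hT.2 w
      rw [← h1, ← h1']
      exact H z
    · intro H z
      rw [h1, h1']
      exact H _
  rw [continuous_iff_continuousAt]
  intro x
  rw [Metric.continuousAt_iff']
  intro ε' hε'
  obtain ⟨ε, hε0, hε1, hε2⟩ : ∃ ε : ℝ, 0 < ε ∧ ε ≤ 1 ∧ ε < ε' :=
    ⟨min 1 (ε' / 2), by positivity, min_le_left _ _,
      (min_le_right _ _).trans_lt (by linarith)⟩
  let C : Set X := {z | ‖T z - T x‖ ≤ ε}
  have hC : C = ⋂ w ∈ {w | ‖T w - T x‖ ≤ 1 - ε}, Metric.closedBall w 1 := by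
    ext z
    simp only [C, mem_ofPred_eq, mem_iInter, mem_closedBall_iff_norm]
    constructor
    · intro hz w hw
      rw [h2]
      calc ‖T z - T w‖ = ‖(T z - T x) - (T w - T x)‖ := by congr 1; abel
        _ ≤ 1 := (norm_sub_le _ _).trans (by linarith)
    · intro hz
      by_contra hc
      push Not at hc
      set d := ‖T z - T x‖ with hd
      have hd0 : 0 < d := by linarith
      obtain ⟨w, hw⟩ := hT.2 (T x - ((1 - ε) / d) • (T z - T x))
      have q0 : 0 ≤ (1 - ε) / d := div_nonneg (by linarith) hd0.le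
      have q1 : (1 - ε) / d * d = 1 - ε := by field_simp
      have a := hz w (by
        rw [hw, sub_sub_cancel_left, norm_neg, norm_smul, Real.norm_eq_abs, abs_of_nonneg q0,
          ← hd, q1])
      rw [h2, hw, show T z - (T x - ((1 - ε) / d) • (T z - T x)) =
        (1 + (1 - ε) / d) • (T z - T x) by rw [add_smul, one_smul]; abel, norm_smul,
        Real.norm_eq_abs, abs_of_nonneg (by linarith), ← hd] at a
      nlinarith
  have hcl : IsClosed C := by
    rw [hC]; exact isClosed_biInter fun _ _ => Metric.isClosed_closedBall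
  have hcv : Convex ℝ C := by
    rw [hC]; exact convex_iInter₂ fun _ _ => convex_closedBall _ _
  have hx : x ∈ C := by simp [C, hε0.le]
  have hab : ∀ v : X, ∃ t : ℝ, 0 < t ∧ x + t • v ∈ C := fun v => radial hT.2 h1 h2 x v hε0
  let f : ℕ → X → X := fun n v => x + (1 / ((n : ℝ) + 1)) • v
  have hcov : ⋃ n, f n ⁻¹' C = univ := by
    refine eq_univ_of_forall fun v => ?_
    obtain ⟨t, ht, hv⟩ := hab v
    obtain ⟨n, hn⟩ := exists_nat_one_div_lt ht
    refine mem_iUnion.2 ⟨n, ?_⟩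
    have b1 : 0 ≤ 1 / ((n : ℝ) + 1) / t := by positivity
    have b2 : 1 / ((n : ℝ) + 1) / t ≤ 1 := (div_le_one ht).2 hn.le
    have := hcv.add_smul_mem hx hv ⟨b1, b2⟩
    rw [smul_smul, div_mul_cancel₀ _ ht.ne'] at this
    exact this
  obtain ⟨n, v, hv⟩ := nonempty_interior_of_iUnion_of_closed
    (fun n => hcl.preimage (show Continuous (f n) by simp only [f]; fun_prop)) hcov
  have hopen : IsOpenMap (f n) :=
    (isOpenMap_add_left x).comp (isOpenMap_smul₀ (by positivity))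
  have hint : f n v ∈ interior C :=
    interior_mono (image_preimage_subset _ _) (hopen.image_interior_subset _ ⟨v, hv, rfl⟩)
  obtain ⟨t, ht, hp⟩ := hab (-((1 / ((n : ℝ) + 1)) • v))
  have hxi := hcv.combo_interior_self_mem_interior hint hp (a := t / (1 + t)) (b := 1 / (1 + t))
    (by positivity) (by positivity) (by field_simp; ring)
  have e : (t / (1 + t)) • f n v + (1 / (1 + t)) • (x + t • -((1 / ((n : ℝ) + 1)) • v)) = x := by
    simp only [f]
    have q : t / (1 + t) = 1 - 1 / (1 + t) := by field_simp; ring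
    have q' : 1 / (1 + t) * t = 1 - 1 / (1 + t) := by field_simp; ring
    rw [q, smul_add (1 / (1 + t)), smul_smul (1 / (1 + t)) t, q']
    module
  rw [e] at hxi
  filter_upwards [mem_interior_iff_mem_nhds.1 hxi] with z hz
  rw [dist_eq_norm]
  exact lt_of_le_of_lt hz hε2

end Pool.Agent.Results.MP_68c038_an.Yes
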